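import Mathlib
import Pool.Agent.H39R3.PB.Basic
import Pool.Agent.H39R3.PS.Defs

/-!
# Palindromes with weighted digits (helper89): definitions and tasks

A digit of base `b` is written as `i + j`, `i < s`, `j < t`, `s + t = b + 1`.  The normalised exponential sum of a
digit is `ps s t x = ph s x * ph t x ≤ Gf s t x = (ph s x ^ 2 + ph t x ^ 2) / 2`, a positive definite majorant with
value `1` at `0` and mean `HH s t = (1 / s + 1 / t) / 2`.  This gives the level of distribution `b ^ (κ L)` for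
`b ^ κ * HH s t < 1`.

`ph`, `pts`, `apts` are those of `Pool.Agent.H39R3.PB`, `EM` is that of `Pool.Agent.H39R3.PS`.
-/

set_option autoImplicit false

namespace Pool.Agent.W89.PW

open Finset Filter Topology Pool.Agent.Helper112
open Pool.Agent.H39R3.PB (ph pts apts)
open Pool.Agent.H39R3.PS (EM)

/-- frequency of the digit at distance `c + 1` from the middle of a palindrome with `2 L + 3` digits;
it is `Pool.Agent.H39R3.PB.fr b (L + 1) (c + 1)` -/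
def fr (b L c : ℕ) : ℕ := b ^ (L + c + 2) + b ^ (L - c)

lemma fr_eq (b L c : ℕ) : fr b L c = Pool.Agent.H39R3.PB.fr b (L + 1) (c + 1) := by
  unfold fr Pool.Agent.H39R3.PB.fr
  rw [if_neg (by omega), show L + 1 + (c + 1) = L + c + 2 by ring, show L + 1 - (c + 1) = L - c by omega]

/-- the normalised exponential sum of a digit `i + j` -/
noncomputable def ps (s t : ℕ) (x : ℝ) : ℝ := ph s x * ph t x

/-- the product over the digits `c < J` -/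
noncomputable def Fw (b s t L J : ℕ) (α : ℝ) : ℝ := ∏ c ∈ range J, ps s t (fr b L c * α)

/-- positive definite majorant of `ps` -/
noncomputable def Gf (s t : ℕ) (x : ℝ) : ℝ := (ph s x ^ 2 + ph t x ^ 2) / 2

/-- the mean of `Gf s t` -/
noncomputable def HH (s t : ℕ) : ℝ := (1 / (s : ℝ) + 1 / (t : ℝ)) / 2

/-- number of `(i, i', j, j')` with `i, i' < s`, `j, j' < t`, `i + i' + j + j' = z` -/
def w2 (s t z : ℕ) : ℕ :=
  (((range s ×ˢ range s) ×ˢ (range t ×ˢ range t)).filter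
    (fun p => p.1.1 + p.1.2 + (p.2.1 + p.2.2) = z)).card

/-- the mean of `ps s t ^ 4` -/
noncomputable def m4 (s t : ℕ) : ℝ := (∑ z ∈ range (2 * (s + t)), (w2 s t z : ℝ) ^ 2) / ((s : ℝ) * t) ^ 4

/-- the palindrome `1 d_{L-1} … d_0 1 d_0 … d_{L-1} 1` with `2 L + 3` base-`b` digits, `d_c = i_c + j_c` -/
def pv (b s t L : ℕ) (m : Fin L → Fin s × Fin t) : ℕ :=
  b ^ (2 * L + 2) + b ^ (L + 1) + 1 + ∑ c : Fin L, (((m c).1 : ℕ) + ((m c).2 : ℕ)) * fr b L c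

/-- number of `m` with `q ∣ pv m` -/
noncomputable def cnt (b s t L q : ℕ) : ℝ :=
  ((univ : Finset (Fin L → Fin s × Fin t)).filter (fun m => q ∣ pv b s t L m)).card

/-! ### tasks -/

/-- PW-1a (model: `Pool.Agent.H503R2.PalQ2`, base 10) -/
def TaskG : Prop := ∀ b s t : ℕ, 2 ≤ b → 1 ≤ s → 1 ≤ t → s + t = b + 1 →
    ∀ (L Q : ℕ) (T : ℝ) (B : Finset ℕ), B ⊆ range L →
    (∀ n : ℕ, 1 ≤ n → n ≤ b ^ (2 * L + 2) → (n.divisors.card : ℝ) ≤ T) →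
    apts b Q (fun α => ∏ c ∈ B, Gf s t (fr b L c * α)) ≤ 2 * Q * (Q * HH s t ^ B.card + T)

/-- PW-1b (model: `Pool.Agent.H503R2.PalQ2.G_sq`, base 10) -/
def TaskGsq : Prop := ∀ b s t : ℕ, 2 ≤ b → 1 ≤ s → 1 ≤ t → s + t = b + 1 →
    ∀ (L P : ℕ) (T : ℝ) (B : Finset ℕ), B ⊆ range L → 1 ≤ P →
    (∀ n : ℕ, 1 ≤ n → n ≤ b ^ (2 * L + 2) → (n.divisors.card : ℝ) ≤ T) →
    ∑ m ∈ (Ico P (2 * P)).filter (fun m => m.Coprime (2 * b)),
      EM (m ^ 2) (fun α => ∏ c ∈ B, Gf s t (fr b L c * α)) ≤ P * HH s t ^ B.card + T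

/-- PW-2a (model: `Pool.Agent.H944R3.PB.taskT1`, file `H944R3/PB_T1.lean`) -/
def TaskLS : Prop := ∀ b s t : ℕ, 2 ≤ b → 1 ≤ s → 1 ≤ t → s + t = b + 1 →
    ∀ L J Q : ℕ, 1 ≤ J → J ≤ L → Q ≤ b ^ J → b ^ J ≤ b * Q →
    pts b Q (fun α => Fw b s t L J α ^ 4) ≤ 12 * ((b : ℝ) ^ 3 + 2) * Q * (b * m4 s t) ^ J

/-- PW-2b (model: `Pool.Agent.H245R3.PSSA.taskSA`, file `H245R3/PS_SA.lean`) -/
def TaskSq4 : Prop := ∀ b s t : ℕ, 2 ≤ b → 1 ≤ s → 1 ≤ t → s + t = b + 1 →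
    ∀ L J M : ℕ, J ≤ L → b ^ (2 * J + 2) ≤ M → M.Coprime b →
    EM M (fun α => Fw b s t L J α ^ 4) ≤ m4 s t ^ J

/-- PW-3: the fourth moment -/
def TaskM4 : Prop := ∀ b : ℕ, 3 ≤ b → (b : ℝ) * m4 ((b + 1) / 2) (b + 1 - (b + 1) / 2) ≤ 24 / 25

/-- PW-4, pointwise bound for one denominator -/
def PtW (b s t : ℕ) : Prop := ∃ κ : ℝ, 0 < κ ∧ κ < 1 ∧ ∀ q h a L : ℕ, 1 < q → q.Coprime (2 * b) →
    a.Coprime q → q < b ^ h → Fw b s t L L ((a : ℝ) / q) ≤ (1 - κ) ^ (L / (2 * h + 2))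

/-- PW-4 (model: `Pool.Agent.H512R3.PBT6.taskT6`, file `H512R3/PB_T6.lean`; its lemma `run` can be used as it is) -/
def TaskPt : Prop := ∀ b s t : ℕ, 2 ≤ b → 2 ≤ s → 1 ≤ t → s + t = b + 1 → PtW b s t

/-- PW-5, the sum over the fractions with denominators `Q ≤ q < 2 Q` -/
def BigW (b s t : ℕ) (κ : ℝ) : Prop := ∃ C δ : ℝ, 0 < C ∧ 0 < δ ∧ δ < 1 ∧ ∀ L Q : ℕ, 1 ≤ Q →
    (Q : ℝ) ≤ (b : ℝ) ^ (κ * L) → pts b Q (Fw b s t L L) ≤ C * (Q : ℝ) ^ (1 - δ)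

/-- PW-5 (models: `Pool.Agent.H476R2.Pal.Q3`, `Pool.Agent.H760R2.PalQ4`, base 10; for small `Q` replace `L` by
`M = 2 J`, using `Fw b s t L L ≤ Fw b s t L M` and rescaling) -/
def TaskBig : Prop := TaskG → TaskLS → ∀ b s t : ℕ, 3 ≤ b → 1 ≤ s → 1 ≤ t → s + t = b + 1 →
    (b : ℝ) * m4 s t < 1 → ∀ κ : ℝ, 0 < κ → (b : ℝ) ^ κ * HH s t < 1 → BigW b s t κ

/-- level of distribution -/
def BVW (b s t : ℕ) (κ : ℝ) : Prop := ∀ A : ℕ, ∀ᶠ L : ℕ in atTop,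
    ∑ q ∈ (Icc 1 ⌊(b : ℝ) ^ (κ * L)⌋₊).filter (fun q => q.Coprime (2 * b)),
      (q.divisors.card : ℝ) ^ 2 * |cnt b s t L q - ((s : ℝ) * t) ^ L / q| ≤ ((s : ℝ) * t) ^ L / (L : ℝ) ^ A

/-- PW-6 (models: `Pool.Agent.H885R3.PBT7.taskT7`, file `H885R3/PB_T7.lean`, and
`Pool.Agent.H623R3.PBT8.taskT8`, file `H623R3/PBT8.lean`) -/
def TaskBV : Prop := ∀ b s t : ℕ, 3 ≤ b → 1 ≤ s → 1 ≤ t → s + t = b + 1 → PtW b s t →
    ∀ κ : ℝ, 0 < κ → κ < 1 → BigW b s t κ → BVW b s t κ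

open Classical in
/-- palindromes divisible by the square of a large integer are rare -/
def SqW (b s t : ℕ) (κ : ℝ) : Prop := ∀ η : ℝ, 0 < η → ∀ A : ℕ, ∀ᶠ L : ℕ in atTop,
    (((univ : Finset (Fin L → Fin s × Fin t)).filter (fun m => ∃ p : ℕ, p.Coprime (2 * b) ∧
      (b : ℝ) ^ (η * L) ≤ p ∧ (p : ℝ) ≤ (b : ℝ) ^ (κ * L) ∧ p ^ 2 ∣ pv b s t L m)).card : ℝ)
      ≤ ((s : ℝ) * t) ^ L / (L : ℝ) ^ A

/-- PW-7 (models: `Pool.Agent.H503R2.PalQ7` (base 10), `H944R3/PS_SC.lean`, `Helper961/Gab/PSSD.lean`) -/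
def TaskSqr : Prop := TaskGsq → TaskSq4 → ∀ b s t : ℕ, 3 ≤ b → 1 ≤ s → 1 ≤ t → s + t = b + 1 →
    (b : ℝ) * m4 s t < 1 → ∀ κ : ℝ, 0 < κ → (b : ℝ) ^ κ * HH s t < 1 → SqW b s t κ

/-- PW-8: digit facts (models: `H187R2/PalT10.lean` (base 10), `H181R5/PB_T9.lean`) -/
def TaskDig : Prop := ∀ b s t L : ℕ, 3 ≤ b → 1 ≤ s → s ≤ t → s + t = b + 1 →
    (∀ m : Fin L → Fin s × Fin t, b ^ (2 * L + 2) < pv b s t L m ∧ pv b s t L m < b ^ (2 * L + 3) ∧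
      (Nat.digits b (pv b s t L m)).reverse = Nat.digits b (pv b s t L m) ∧
      (pv b s t L m).Coprime (2 * b)) ∧
    ∀ n : ℕ, ((univ : Finset (Fin L → Fin s × Fin t)).filter (fun m => pv b s t L m = n)).card ≤ s ^ L

end Pool.Agent.W89.PW
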