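import Mathlib
import Pool.Agent.W89.Sv.Weight
import Pool.Agent.W89.PW.Defs
import Pool.Agent.H476R2.Pal.F1
import Pool.Agent.W880.PW_G
import Pool.Agent.W342.PW2
import Pool.Agent.W571.PW.Pt
import Pool.Agent.W571.PW.Dig
import Pool.Agent.W822.PW_Big
import Pool.Agent.W261.PW_BV
import Pool.Agent.W809.PW.Sqr

/-! # Almost prime palindromes: assembly -/

set_option autoImplicit false

namespace Pool.Agent.W89.PW

open Finset Filter Topology
open Pool.Agent.W89.Sv (PP PZ VZ rem wt En weighted_sieve V_lim cV cV_pos mem_PP dvd_PZ)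
open Pool.Agent.H476R2.Pal (omega_bound count_pos)

/-- the sifting limit -/
noncomputable def zz (b : ℕ) (κ : ℝ) (L : ℕ) : ℕ := ⌊(b : ℝ) ^ (κ * L * (2 / 11))⌋₊

lemma zz_le (b : ℕ) (κ : ℝ) (L : ℕ) : (zz b κ L : ℝ) ≤ (b : ℝ) ^ (κ * L * (2 / 11)) :=
  Nat.floor_le (by positivity)

lemma zz_pow_le {b : ℕ} (κ : ℝ) (L : ℕ) :
    ((zz b κ L : ℕ) : ℝ) ^ (11 / 2 : ℝ) ≤ (b : ℝ) ^ (κ * L) := by
  calc ((zz b κ L : ℕ) : ℝ) ^ (11 / 2 : ℝ) ≤ ((b : ℝ) ^ (κ * L * (2 / 11))) ^ (11 / 2 : ℝ) :=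
        Real.rpow_le_rpow (Nat.cast_nonneg _) (zz_le b κ L) (by norm_num)
    _ = (b : ℝ) ^ (κ * L) := by
        rw [← Real.rpow_mul (Nat.cast_nonneg _)]
        congr 1
        ring

lemma tendsto_bpow {b : ℕ} (hb : 2 ≤ b) {a : ℝ} (ha : 0 < a) :
    Tendsto (fun L : ℕ => (b : ℝ) ^ (a * L)) atTop atTop := by
  have h1 : (1 : ℝ) < b := by exact_mod_cast (by omega : 1 < b)
  exact (tendsto_rpow_atTop_of_base_gt_one b h1).comp
    ((tendsto_natCast_atTop_atTop (R := ℝ)).const_mul_atTop ha)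

lemma tendsto_zz {b : ℕ} (hb : 2 ≤ b) {κ : ℝ} (hκ : 0 < κ) : Tendsto (zz b κ) atTop atTop := by
  apply tendsto_nat_floor_atTop.comp
  refine (tendsto_bpow hb (a := κ * (2 / 11)) (by positivity)).congr fun L => ?_
  congr 1
  ring

/-- a palindrome of positive weight has at most `r` prime factors -/
theorem good {b r L n z : ℕ} {lam R η κ : ℝ} (hb : 3 ≤ b) (hz : 2 ≤ z) (h1 : 0 < n) (h2 : n < b ^ (2 * L + 3))
    (hc : n.Coprime (2 * b)) (hs : n.Coprime (PZ (2 * b) z))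
    (hzD : (z : ℝ) ^ (11 / 2 : ℝ) ≤ (b : ℝ) ^ (κ * L)) (hzη : (b : ℝ) ^ (η * L) < z)
    (hsq : ∀ p : ℕ, p.Coprime (2 * b) → (b : ℝ) ^ (η * L) ≤ p → (p : ℝ) ≤ (b : ℝ) ^ (κ * L) → ¬ p ^ 2 ∣ n)
    (hl0 : 0 < lam) (hR : (2 * (L : ℝ) + 3) * Real.log b ≤ R * (86 / 88 * Real.log ((z : ℝ) ^ (11 / 2 : ℝ))))
    (hrR : 1 / lam + R ≤ r + 1) (hw : 0 < wt (2 * b) z lam n) :
    n.primeFactorsList.length ≤ r ∧ ∀ p ∈ n.primeFactorsList, (b : ℝ) ^ (η * L) < p := by
  have hzR : (2 : ℝ) ≤ z := by exact_mod_cast hz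
  have hnd : ∀ p : ℕ, p.Prime → p ∣ n → ¬ p ∣ 2 * b := by
    intro p hp hpn hpb
    have h5 := Nat.dvd_gcd hpn hpb
    rw [hc] at h5
    exact hp.one_lt.ne' (Nat.dvd_one.1 h5)
  -- all prime factors are at least z
  have hbig : ∀ p : ℕ, p.Prime → p ∣ n → z ≤ p := by
    intro p hp hpn
    by_contra hlt
    push Not at hlt
    have h4 := dvd_PZ hp hlt (hnd p hp hpn)
    have h5 := Nat.dvd_gcd hpn h4
    rw [hs] at h5
    exact hp.one_lt.ne' (Nat.dvd_one.1 h5)
  have hbig' : ∀ p : ℕ, p.Prime → p ∣ n → (b : ℝ) ^ (η * L) < p := fun p hp hpn =>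
    hzη.trans_le (by exact_mod_cast hbig p hp hpn)
  refine ⟨?_, fun p hp => hbig' p (Nat.prime_of_mem_primeFactorsList hp) (Nat.dvd_of_mem_primeFactorsList hp)⟩
  set D : ℝ := (z : ℝ) ^ (11 / 2 : ℝ) with hD
  have hD1 : 1 < D := Real.one_lt_rpow (by linarith) (by norm_num)
  have hD0 : 0 < D := by linarith
  have hlD0 : 0 < Real.log D := Real.log_pos hD1
  set ly := 86 / 88 * Real.log D with hly
  have hly0 : 0 < ly := by positivity
  have hlogy : Real.log (D ^ (86 / 88 : ℝ)) = ly := by rw [Real.log_rpow hD0]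
  have hiff : ∀ p : ℕ, p.Prime → (Real.log p < ly ↔ (p : ℝ) < D ^ (86 / 88 : ℝ)) := by
    intro p hp
    rw [← hlogy]
    exact Real.log_lt_log_iff (by exact_mod_cast hp.pos) (by positivity)
  have hyD : D ^ (86 / 88 : ℝ) ≤ D := by
    conv_rhs => rw [← Real.rpow_one D]
    exact Real.rpow_le_rpow_of_exponent_le hD1.le (by norm_num)
  have hom := omega_bound h1 hly0 (by
    intro p hp hpn hlt
    apply hsq p
    · rw [Nat.Prime.coprime_iff_not_dvd hp]
      exact hnd p hp hpn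
    · exact (hbig' p hp hpn).le
    · exact ((((hiff p hp).1 hlt).le).trans hyD).trans hzD)
  have hset : n.primeFactors.filter (fun p : ℕ => Real.log p < ly) =
      (En (2 * b) z D 70).filter (fun p => p ∣ n) := by
    ext p
    unfold En
    have e1 : (((70 : ℕ) : ℝ) + 16) / 88 = 86 / 88 := by norm_num
    rw [e1]
    simp only [mem_filter, mem_PP, Nat.mem_primeFactors]
    constructor
    · rintro ⟨⟨hp, hpn, _⟩, hlt⟩
      exact ⟨⟨⟨Nat.lt_ceil.2 ((hiff p hp).1 hlt), hp, hnd p hp hpn⟩, hbig p hp hpn⟩, hpn⟩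
    · rintro ⟨⟨⟨hlt, hp, _⟩, _⟩, hpn⟩
      exact ⟨⟨hp, hpn, h1.ne'⟩, (hiff p hp).2 (Nat.lt_ceil.1 hlt)⟩
  rw [hset] at hom
  unfold wt at hw
  rw [← hD, ← hly] at hw
  set Sg := ∑ p ∈ (En (2 * b) z D 70).filter (fun p => p ∣ n), (1 - Real.log p / ly) with hSg
  have hS : Sg < 1 / lam := by
    rw [lt_div_iff₀ hl0]
    linarith
  have hlogn : Real.log n ≤ (2 * (L : ℝ) + 3) * Real.log b := by
    have : (n : ℝ) ≤ (b : ℝ) ^ (2 * L + 3) := by exact_mod_cast h2.le
    calc Real.log n ≤ Real.log ((b : ℝ) ^ (2 * L + 3)) :=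
          Real.log_le_log (by exact_mod_cast h1) this
      _ = _ := by rw [Real.log_pow]; push_cast; ring
  have hratio : Real.log n / ly ≤ R := by
    rw [div_le_iff₀ hly0]
    exact hlogn.trans hR
  have hlt : (n.primeFactorsList.length : ℝ) < r + 1 := by linarith
  have : n.primeFactorsList.length < r + 1 := by exact_mod_cast hlt
  omega

lemma HH_pos {s t : ℕ} (hs : 1 ≤ s) : 0 < HH s t := by
  unfold HH
  have : (0 : ℝ) < s := by exact_mod_cast hs
  positivity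

lemma kappa_lt_one {b s t : ℕ} {κ : ℝ} (hb : 3 ≤ b) (hs : 1 ≤ s) (ht : 1 ≤ t) (hbst : s + t = b + 1)
    (hκ : (b : ℝ) ^ κ * HH s t < 1) : κ < 1 := by
  by_contra h
  push Not at h
  have hb1 : (1 : ℝ) ≤ b := by exact_mod_cast (by omega : 1 ≤ b)
  have h1 : (b : ℝ) ≤ (b : ℝ) ^ κ := by
    conv_lhs => rw [← Real.rpow_one (b : ℝ)]
    exact Real.rpow_le_rpow_of_exponent_le hb1 h
  have hs0 : (1 : ℝ) ≤ s := by exact_mod_cast hs
  have ht0 : (1 : ℝ) ≤ t := by exact_mod_cast ht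
  have hst : (s : ℝ) + t = b + 1 := by exact_mod_cast hbst
  have h2 : 1 ≤ (b : ℝ) * HH s t := by
    unfold HH
    rw [show (b : ℝ) * ((1 / (s : ℝ) + 1 / t) / 2) = b * (s + t) / (2 * s * t) by field_simp; ring]
    rw [one_le_div (by positivity), hst]
    have hb' : (b : ℝ) = s + t - 1 := by linarith
    rw [hb']
    have e1 : ((s : ℝ) + t - 1) * (s + t - 1 + 1) - 2 * s * t = s * (s - 1) + t * (t - 1) := by ring
    have e2 : 0 ≤ (s : ℝ) * (s - 1) := mul_nonneg (by linarith) (by linarith)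
    have e3 : 0 ≤ (t : ℝ) * (t - 1) := mul_nonneg (by linarith) (by linarith)
    linarith
  have h3 := mul_le_mul_of_nonneg_right h1 (HH_pos (t := t) hs).le
  linarith

/-- the properties of the palindromes found -/
def PlP (b r : ℕ) (κ : ℝ) (L n : ℕ) : Prop := b ^ (2 * L + 2) ≤ n ∧ n < b ^ (2 * L + 3) ∧
  (Nat.digits b n).reverse = Nat.digits b n ∧ n.primeFactorsList.length ≤ r ∧
  ∀ p ∈ n.primeFactorsList, (b : ℝ) ^ (κ / 6 * L) < p

/-- many digit vectors give palindromes with at most `r` prime factors -/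
theorem almost0 {b s t r : ℕ} (hb : 3 ≤ b) (hs : 2 ≤ s) (hst : s ≤ t) (hbst : s + t = b + 1) {κ lam : ℝ}
    (hκ0 : 0 < κ) (hκ : (b : ℝ) ^ κ * HH s t < 1) (hm4 : (b : ℝ) * m4 s t < 1) (hl0 : 0 < lam) (hl1 : lam ≤ 1)
    (hlam : lam * (1174 / 1000) < 994 / 1000) (hr : 1 / lam + 88 / (43 * κ) < r + 1) :
    ∃ c : ℝ, 0 < c ∧ ∀ᶠ L : ℕ in atTop, ∃ G : Finset (Fin L → Fin s × Fin t),
      c * ((s : ℝ) * t) ^ L / L ≤ G.card ∧ ∀ m ∈ G, PlP b r κ L (pv b s t L m) := by
  classical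
  have hκ1 : κ < 1 := kappa_lt_one hb (by omega) (by omega) hbst hκ
  have hBig : BigW b s t κ := Pool.Agent.W822.PWBig.main Pool.Agent.W880.PW.mainG Pool.Agent.W342.PW2.mainLS
    b s t hb (by omega) (by omega) hbst hm4 κ hκ0 hκ
  have hPt : PtW b s t := Pool.Agent.W571.PW.Pt.main b s t (by omega) hs (by omega) hbst
  have hBV : BVW b s t κ := Pool.Agent.W261.PWBV.main b s t hb (by omega) (by omega) hbst hPt κ hκ0 hκ1 hBig
  have hSq : SqW b s t κ := Pool.Agent.W809.PWSqr.main Pool.Agent.W880.PW.mainGsq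
    Pool.Agent.W342.PW2.mainSq4 b s t hb (by omega) (by omega) hbst hm4 κ hκ0 hκ
  have hDig := fun L => Pool.Agent.W571.PW.Dig.main b s t L hb (by omega) hst hbst
  obtain ⟨δ, hδ0, z0, hsieve⟩ := weighted_sieve (2 * b) (by omega) (dvd_mul_right 2 b) hl0.le hl1 hlam
  have hbR : (3 : ℝ) ≤ b := by exact_mod_cast hb
  have hlb : 1 ≤ Real.log b := by
    rw [Real.le_log_iff_exp_le (by linarith)]
    have := Real.exp_one_lt_d9
    linarith
  have hlb0 : 0 < Real.log b := by linarith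
  set K : ℝ := cV (2 * b) with hK
  have hK0 : 0 < K := cV_pos _
  set R : ℝ := (r : ℝ) + 1 - 1 / lam with hRd
  have hRκ : 0 < R * (86 / 88) * κ - 2 := by
    have h1 : 88 / (43 * κ) < R := by rw [hRd]; linarith
    rw [div_lt_iff₀ (by positivity)] at h1
    linarith
  have hR0 : 0 < R := by
    have h1 : 0 < R * (86 / 88) * κ := by linarith
    by_contra h
    push Not at h
    have : R * (86 / 88) * κ ≤ 0 := by
      have h2 : 0 ≤ (86 / 88 : ℝ) * κ := by positivity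
      rw [mul_assoc]
      exact mul_nonpos_of_nonpos_of_nonneg h h2
    linarith
  set c : ℝ := δ * K / (8 * Real.log b) with hc
  have hc0 : 0 < c := by positivity
  refine ⟨c, hc0, ?_⟩
  have e1 : ∀ᶠ L : ℕ in atTop, K / 2 < VZ (2 * b) (zz b κ L) * Real.log (zz b κ L : ℝ) :=
    ((V_lim (2 * b) (by omega)).comp (tendsto_zz (by omega) hκ0)).eventually_const_lt (by linarith)
  have e2 : ∀ᶠ L : ℕ in atTop, max z0 2 ≤ zz b κ L := (tendsto_zz (by omega) hκ0).eventually_ge_atTop _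
  have e3 := hBV 3
  have e4 := hSq (κ / 6) (by positivity) 3
  have e5 : ∀ᶠ L : ℕ in atTop, 16 * Real.log b / (δ * K) + 1 ≤ (L : ℝ) :=
    tendsto_natCast_atTop_atTop.eventually_ge_atTop _
  have e6 : ∀ᶠ L : ℕ in atTop, 2 ≤ (b : ℝ) ^ (κ * (2 / 11 - 1 / 6) * (L : ℝ)) :=
    (tendsto_bpow (by omega) (a := κ * (2 / 11 - 1 / 6)) (by positivity)).eventually_ge_atTop 2
  have e7 : ∀ᶠ L : ℕ in atTop, 3 * Real.log b + R * (86 / 88) * (11 / 2 * Real.log 2) ≤
      (R * (86 / 88) * κ - 2) * Real.log b * (L : ℝ) :=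
    ((tendsto_natCast_atTop_atTop (R := ℝ)).const_mul_atTop (by positivity)).eventually_ge_atTop _
  filter_upwards [e1, e2, e3, e4, e5, e6, e7] with L h1 h2 h3 h4 h5 h6 h7
  have hL1 : (1 : ℝ) ≤ L := by
    have : 0 ≤ 16 * Real.log b / (δ * K) := by positivity
    linarith
  have hL0 : (0 : ℝ) < L := by linarith
  set z := zz b κ L with hz
  have hz0 : z0 ≤ z := (le_max_left _ _).trans h2
  have hz2 : 2 ≤ z := (le_max_right _ _).trans h2
  have hzR : (2 : ℝ) ≤ z := by exact_mod_cast hz2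
  have hzle : (z : ℝ) ≤ (b : ℝ) ^ (κ * L * (2 / 11)) := zz_le b κ L
  have hzge : (b : ℝ) ^ (κ * L * (2 / 11)) / 2 ≤ z := by
    have h8 : (b : ℝ) ^ (κ * L * (2 / 11)) < z + 1 := Nat.lt_floor_add_one _
    linarith
  have hzη : (b : ℝ) ^ (κ / 6 * L) < z := by
    have e : (b : ℝ) ^ (κ * L * (2 / 11)) = (b : ℝ) ^ (κ / 6 * L) * (b : ℝ) ^ (κ * (2 / 11 - 1 / 6) * (L : ℝ)) := by
      rw [← Real.rpow_add (by linarith)]
      congr 1
      ring
    have h8 : (b : ℝ) ^ (κ * L * (2 / 11)) < z + 1 := Nat.lt_floor_add_one _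
    have h9 : 1 < (b : ℝ) ^ (κ / 6 * L) := Real.one_lt_rpow (by linarith) (by positivity)
    have h10 : (b : ℝ) ^ (κ / 6 * L) * 2 ≤ (b : ℝ) ^ (κ * L * (2 / 11)) := by
      rw [e]
      exact mul_le_mul_of_nonneg_left h6 (by positivity)
    linarith
  have hzD : (z : ℝ) ^ (11 / 2 : ℝ) ≤ (b : ℝ) ^ (κ * L) := zz_pow_le κ L
  have hlogz : Real.log z ≤ L * Real.log b := by
    have h8 := Real.log_le_log (by linarith) hzle
    rw [Real.log_rpow (by linarith)] at h8
    refine h8.trans ?_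
    apply mul_le_mul_of_nonneg_right _ hlb0.le
    have : κ * L * (2 / 11) ≤ 1 * L * 1 := by
      apply mul_le_mul _ (by norm_num) (by norm_num) (by positivity)
      exact mul_le_mul_of_nonneg_right hκ1.le hL0.le
    linarith
  have hR : (2 * (L : ℝ) + 3) * Real.log b ≤ R * (86 / 88 * Real.log ((z : ℝ) ^ (11 / 2 : ℝ))) := by
    have h8 := Real.log_le_log (by positivity) hzge
    rw [Real.log_div (by positivity) (by norm_num), Real.log_rpow (by linarith)] at h8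
    rw [Real.log_rpow (by linarith)]
    have h9 : R * (86 / 88) * (11 / 2) * (κ * L * (2 / 11) * Real.log b - Real.log 2) ≤
        R * (86 / 88) * (11 / 2) * Real.log z := mul_le_mul_of_nonneg_left h8 (by positivity)
    have h10 : R * (86 / 88) * (11 / 2) * (κ * L * (2 / 11) * Real.log b - Real.log 2) =
        (R * (86 / 88) * κ - 2) * Real.log b * L + 2 * L * Real.log b - R * (86 / 88) * (11 / 2 * Real.log 2) := by
      ring
    rw [h10] at h9
    linarith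
  have hVpos : 0 < VZ (2 * b) z := Pool.Agent.W89.Sv.VZ_pos _ _
  have hVL : K / (2 * (L * Real.log b)) ≤ VZ (2 * b) z := by
    rw [div_le_iff₀ (by positivity)]
    have h8 := mul_le_mul_of_nonneg_left hlogz hVpos.le
    linarith
  set X : ℝ := ((s : ℝ) * t) ^ L with hX
  have hs0 : (0 : ℝ) < s := by exact_mod_cast (by omega : 0 < s)
  have ht0 : (0 : ℝ) < t := by exact_mod_cast (by omega : 0 < t)
  have hX0 : 0 < X := by positivity
  have hS := hsieve z hz0 (Fin L → Fin s × Fin t) univ (pv b s t L) X hX0.le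
  have hRem : ∑ q ∈ (Icc 1 ⌊(z : ℝ) ^ (11 / 2 : ℝ)⌋₊).filter (fun q => q.Coprime (2 * b)),
      (q.divisors.card : ℝ) ^ 2 * |rem (univ : Finset (Fin L → Fin s × Fin t)) (pv b s t L) X q| ≤
      X / (L : ℝ) ^ 3 := by
    refine le_trans ?_ h3
    have hsub : (Icc 1 ⌊(z : ℝ) ^ (11 / 2 : ℝ)⌋₊).filter (fun q => q.Coprime (2 * b)) ⊆
        (Icc 1 ⌊(b : ℝ) ^ (κ * L)⌋₊).filter (fun q => q.Coprime (2 * b)) := by
      intro q hq
      rw [mem_filter, mem_Icc] at hq ⊢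
      exact ⟨⟨hq.1.1, hq.1.2.trans (Nat.floor_le_floor hzD)⟩, hq.2⟩
    refine le_trans (sum_le_sum_of_subset_of_nonneg hsub fun _ _ _ => by positivity) (le_of_eq ?_)
    rfl
  set w : (Fin L → Fin s × Fin t) → ℝ := fun m => wt (2 * b) z lam (pv b s t L m) with hw
  set T := (univ : Finset (Fin L → Fin s × Fin t)).filter (fun m => (pv b s t L m).Coprime (PZ (2 * b) z)) with hT
  set B := (univ : Finset (Fin L → Fin s × Fin t)).filter (fun m => ∃ p : ℕ, p.Coprime (2 * b) ∧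
      (b : ℝ) ^ (κ / 6 * L) ≤ p ∧ (p : ℝ) ≤ (b : ℝ) ^ (κ * L) ∧ p ^ 2 ∣ pv b s t L m) with hB
  have hD1 : 1 < (z : ℝ) ^ (11 / 2 : ℝ) := Real.one_lt_rpow (by linarith) (by norm_num)
  have hcp := count_pos T B w (by
    intro m _
    simp only [hw]
    unfold wt
    have h8 : 0 ≤ ∑ p ∈ (En (2 * b) z ((z : ℝ) ^ (11 / 2 : ℝ)) 70).filter (fun p => p ∣ pv b s t L m),
        (1 - Real.log p / (86 / 88 * Real.log ((z : ℝ) ^ (11 / 2 : ℝ)))) := by
      apply sum_nonneg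
      intro p hp
      have hp' := (mem_filter.1 hp).1
      unfold En at hp'
      rw [mem_filter, mem_PP, Nat.lt_ceil] at hp'
      have e : (((70 : ℕ) : ℝ) + 16) / 88 = 86 / 88 := by norm_num
      rw [e] at hp'
      have hlD := Real.log_pos hD1
      have h9 : Real.log p ≤ 86 / 88 * Real.log ((z : ℝ) ^ (11 / 2 : ℝ)) := by
        rw [← Real.log_rpow (by linarith : 0 < (z : ℝ) ^ (11 / 2 : ℝ))]
        exact Real.log_le_log (by exact_mod_cast hp'.1.2.1.pos) hp'.1.1.le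
      rw [sub_nonneg, div_le_one (by positivity)]
      exact h9
    have h10 := mul_nonneg hl0.le h8
    linarith)
  have hsumT : δ * (X * VZ (2 * b) z) - X / (L : ℝ) ^ 3 ≤ ∑ m ∈ T, w m := by
    refine le_trans ?_ hS
    linarith
  have hBc : (B.card : ℝ) ≤ X / (L : ℝ) ^ 3 := by
    refine le_trans (le_of_eq ?_) h4
    rw [hB]
  -- lower bound for the number of good `m`
  have hnum : 2 * c * X / L ≤ (((T.filter (fun i => 0 < w i)) \ B).card : ℝ) := by
    refine le_trans ?_ hcp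
    have h8 : δ * (X * (K / (2 * (L * Real.log b)))) ≤ δ * (X * VZ (2 * b) z) := by gcongr
    have h9 : δ * (X * (K / (2 * (L * Real.log b)))) = 4 * c * X / L := by
      rw [hc]; field_simp; ring
    have h10 : X / (L : ℝ) ^ 3 ≤ c * X / L := by
      rw [div_le_div_iff₀ (by positivity) hL0]
      have h11 : 16 * Real.log b / (δ * K) ≤ L := by linarith
      rw [div_le_iff₀ (by positivity)] at h11
      have h12 : 1 ≤ c * L := by
        rw [hc, div_mul_eq_mul_div, one_le_div (by positivity)]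
        have e : δ * K * (L : ℝ) = L * (δ * K) := by ring
        rw [e]
        linarith
      have h13 : 1 ≤ c * L ^ 2 := by
        have : c * L ≤ c * L ^ 2 := by
          apply mul_le_mul_of_nonneg_left _ hc0.le
          exact le_self_pow₀ hL1 (by norm_num)
        linarith
      calc X * L = X * L * 1 := by ring
        _ ≤ X * L * (c * L ^ 2) := by gcongr
        _ = _ := by ring
    have h14 : 4 * c * X / L - c * X / L - c * X / L = 2 * c * X / L := by ring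
    linarith
  -- the palindromes
  refine ⟨(T.filter (fun i => 0 < w i)) \ B, ?_, ?_⟩
  · refine le_trans ?_ hnum
    apply div_le_div_of_nonneg_right _ hL0.le
    have : 0 ≤ c * X := by positivity
    linarith
  · intro m hm
    rw [Finset.mem_sdiff, mem_filter, hT, mem_filter] at hm
    obtain ⟨⟨⟨_, hs'⟩, hwm⟩, hmB⟩ := hm
    obtain ⟨hd1, hd2, hd3, hd4⟩ := (hDig L).1 m
    have hg := good (r := r) hb hz2 (by omega : 0 < pv b s t L m) hd2 hd4 hs' hzD hzη (by
      intro p hp1 hp2 hp3 hp4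
      apply hmB
      rw [hB, mem_filter]
      exact ⟨mem_univ _, p, hp1, hp2, hp3, hp4⟩) hl0 hR (by rw [hRd]; linarith) hwm
    exact ⟨hd1.le, hd2, hd3, hg.1, hg.2⟩

end Pool.Agent.W89.PW
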