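import Mathlib
import Pool.Agent.W89.PW.Final

/-! # Counting palindromes from digit vectors -/

set_option autoImplicit false

namespace Pool.Agent.W89.PW

open Finset Filter Topology
open Pool.Agent.W571.PW.Dig (dg pv_eq)
open Pool.Agent.H181R5.PBT9 (pvl_inj)

lemma dsum_eq {b s t L : ℕ} (hb : 3 ≤ b) (hst : s + t = b + 1) {m m' : Fin L → Fin s × Fin t}
    (h : pv b s t L m = pv b s t L m') (c : Fin L) :
    ((m c).1 : ℕ) + ((m c).2 : ℕ) = ((m' c).1 : ℕ) + ((m' c).2 : ℕ) := by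
  have hb1 : 1 < b := by omega
  rw [pv_eq hb1 hst, pv_eq hb1 hst] at h
  have h2 := pvl_inj (b := b) (by omega) (L + 1) (by omega)
    (show (1, dg b s t L hb1 hst m) ∈ {x : ℕ × (Fin (L + 1) → Fin b) | x.1 < b} from hb1)
    (show (1, dg b s t L hb1 hst m') ∈ {x : ℕ × (Fin (L + 1) → Fin b) | x.1 < b} from hb1) h
  have h3 : dg b s t L hb1 hst m = dg b s t L hb1 hst m' := (Prod.ext_iff.1 h2).2
  exact congrArg Fin.val (congrFun h3 c.succ)

/-- the quadruples with `i + j = i' + j'` -/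
def Eset (s t : ℕ) : Finset ((Fin s × Fin t) × (Fin s × Fin t)) :=
  univ.filter (fun p => (p.1.1 : ℕ) + (p.1.2 : ℕ) = (p.2.1 : ℕ) + (p.2.2 : ℕ))

/-- pairs of digit vectors with the same value -/
lemma pairs_card {b s t L : ℕ} (hb : 3 ≤ b) (hst : s + t = b + 1) :
    ((univ : Finset ((Fin L → Fin s × Fin t) × (Fin L → Fin s × Fin t))).filter
      (fun x => pv b s t L x.1 = pv b s t L x.2)).card ≤ (Eset s t).card ^ L := by
  have h1 : (Fintype.piFinset (fun _ : Fin L => Eset s t)).card = (Eset s t).card ^ L := by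
    rw [Fintype.card_piFinset, prod_const, card_univ, Fintype.card_fin]
  rw [← h1]
  apply card_le_card_of_injOn (fun x c => (x.1 c, x.2 c))
  · intro x hx
    rw [mem_coe, mem_filter] at hx
    rw [mem_coe, Fintype.mem_piFinset]
    intro c
    unfold Eset
    rw [mem_filter]
    exact ⟨mem_univ _, dsum_eq hb hst hx.2 c⟩
  · intro x _ y _ h
    have h2 : ∀ c, (x.1 c, x.2 c) = (y.1 c, y.2 c) := fun c => congrFun h c
    apply Prod.ext
    · funext c
      exact (Prod.ext_iff.1 (h2 c)).1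
    · funext c
      exact (Prod.ext_iff.1 (h2 c)).2

/-- Cauchy's inequality for the fibres -/
lemma card_sq_le {b s t L : ℕ} (hb : 3 ≤ b) (hst : s + t = b + 1) (G : Finset (Fin L → Fin s × Fin t)) :
    G.card ^ 2 ≤ (G.image (pv b s t L)).card * (Eset s t).card ^ L := by
  classical
  have h1 : G.card = ∑ n ∈ G.image (pv b s t L), (G.filter (fun m => pv b s t L m = n)).card :=
    card_eq_sum_card_fiberwise fun m hm => mem_coe.2 (mem_image_of_mem _ (mem_coe.1 hm))
  have h2 := sq_sum_le_card_mul_sum_sq (s := G.image (pv b s t L))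
    (f := fun n => (G.filter (fun m => pv b s t L m = n)).card)
  rw [← h1] at h2
  refine h2.trans (Nat.mul_le_mul_left _ (le_trans ?_ (pairs_card hb hst)))
  have h3 : ∑ n ∈ G.image (pv b s t L), (G.filter (fun m => pv b s t L m = n)).card ^ 2 =
      ((G ×ˢ G).filter (fun x => pv b s t L x.1 = pv b s t L x.2)).card := by
    rw [card_eq_sum_card_fiberwise (f := fun x : (Fin L → Fin s × Fin t) × (Fin L → Fin s × Fin t) =>
      pv b s t L x.1) (t := G.image (pv b s t L))]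
    · apply sum_congr rfl
      intro n _
      rw [sq, ← card_product]
      congr 1
      ext x
      simp only [mem_filter, mem_product]
      constructor
      · rintro ⟨⟨h4, h5⟩, h6, h7⟩
        exact ⟨⟨⟨h4, h6⟩, h5.trans h7.symm⟩, h5⟩
      · rintro ⟨⟨⟨h4, h6⟩, h7⟩, h5⟩
        exact ⟨⟨h4, h5⟩, h6, h7.symm.trans h5⟩
    · intro x hx
      rw [mem_coe, mem_filter, mem_product] at hx
      exact mem_coe.2 (mem_image_of_mem _ hx.1.1)
  rw [h3]
  apply card_le_card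
  intro x hx
  rw [mem_filter] at hx ⊢
  exact ⟨mem_univ _, hx.2⟩

open Classical in
/-- at least `c ((s t)^2 / E)^L / L^2` palindromes with `2 L + 3` digits have at most `r` prime factors -/
theorem almostE {b s t r : ℕ} (hb : 3 ≤ b) (hs : 2 ≤ s) (hst : s ≤ t) (hbst : s + t = b + 1) {κ lam : ℝ}
    (hκ0 : 0 < κ) (hκ : (b : ℝ) ^ κ * HH s t < 1) (hm4 : (b : ℝ) * m4 s t < 1) (hl0 : 0 < lam) (hl1 : lam ≤ 1)
    (hlam : lam * (1174 / 1000) < 994 / 1000) (hr : 1 / lam + 88 / (43 * κ) < r + 1) :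
    ∃ c : ℝ, 0 < c ∧ ∀ᶠ L : ℕ in atTop, c * (((s : ℝ) * t) ^ 2 / (Eset s t).card) ^ L / (L : ℝ) ^ 2 ≤
      (((range (b ^ (2 * L + 3))).filter (fun n => PlP b r κ L n)).card : ℝ) := by
  obtain ⟨c, hc0, hc⟩ := almost0 (r := r) hb hs hst hbst hκ0 hκ hm4 hl0 hl1 hlam hr
  refine ⟨c ^ 2, by positivity, ?_⟩
  filter_upwards [hc, eventually_ge_atTop 1] with L ⟨G, hG1, hG2⟩ hL
  have hL0 : (0 : ℝ) < L := by exact_mod_cast hL
  have hs0 : (0 : ℝ) < s := by exact_mod_cast (by omega : 0 < s)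
  have ht0 : (0 : ℝ) < t := by exact_mod_cast (by omega : 0 < t)
  have hE : 0 < (Eset s t).card := by
    apply card_pos.2
    refine ⟨((⟨0, by omega⟩, ⟨0, by omega⟩), (⟨0, by omega⟩, ⟨0, by omega⟩)), ?_⟩
    unfold Eset
    simp
  have hER : (0 : ℝ) < (Eset s t).card := by exact_mod_cast hE
  have h1 := card_sq_le (b := b) hb hbst G
  have h2 : (G.image (pv b s t L)).card ≤ ((range (b ^ (2 * L + 3))).filter (fun n => PlP b r κ L n)).card := by
    apply card_le_card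
    intro n hn
    rw [mem_image] at hn
    obtain ⟨m, hm, rfl⟩ := hn
    rw [mem_filter, mem_range]
    exact ⟨(hG2 m hm).2.1, hG2 m hm⟩
  have h3 : (G.card : ℝ) ^ 2 ≤ (((range (b ^ (2 * L + 3))).filter (fun n => PlP b r κ L n)).card : ℝ) *
      ((Eset s t).card : ℝ) ^ L := by
    have : G.card ^ 2 ≤ ((range (b ^ (2 * L + 3))).filter (fun n => PlP b r κ L n)).card *
        (Eset s t).card ^ L := h1.trans (Nat.mul_le_mul_right _ h2)
    exact_mod_cast this
  have h4 : (c * ((s : ℝ) * t) ^ L / L) ^ 2 ≤ (G.card : ℝ) ^ 2 := pow_le_pow_left₀ (by positivity) hG1 2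
  have h5 := h4.trans h3
  rw [← div_le_iff₀ (by positivity)] at h5
  refine le_trans (le_of_eq ?_) h5
  rw [div_pow ((((s : ℝ) * t) ^ 2)), ← pow_mul, mul_comm 2 L, pow_mul]
  field_simp

open Classical in
/-- the same with digit number `2 N + 1` and a clean exponential lower bound -/
theorem almostN {b s t r : ℕ} (hb : 3 ≤ b) (hs : 2 ≤ s) (hst : s ≤ t) (hbst : s + t = b + 1) {κ lam : ℝ}
    (hκ0 : 0 < κ) (hκ : (b : ℝ) ^ κ * HH s t < 1) (hm4 : (b : ℝ) * m4 s t < 1) (hl0 : 0 < lam) (hl1 : lam ≤ 1)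
    (hlam : lam * (1174 / 1000) < 994 / 1000) (hr : 1 / lam + 88 / (43 * κ) < r + 1)
    {B η : ℝ} (hB : 1 ≤ B) (hBE : B < ((s : ℝ) * t) ^ 2 / (Eset s t).card) (hη : η < κ / 6) :
    ∀ᶠ N : ℕ in atTop, B ^ N ≤ (((range (b ^ (2 * N + 1))).filter (fun n => b ^ (2 * N) ≤ n ∧
      (Nat.digits b n).reverse = Nat.digits b n ∧ n.primeFactorsList.length ≤ r ∧
      ∀ p ∈ n.primeFactorsList, (b : ℝ) ^ (η * N) < p)).card : ℝ) := by
  obtain ⟨c, hc0, hc⟩ := almostE (r := r) hb hs hst hbst hκ0 hκ hm4 hl0 hl1 hlam hr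
  set A : ℝ := ((s : ℝ) * t) ^ 2 / (Eset s t).card with hA
  have hA0 : 0 < A := by linarith
  -- the exponential beats the square
  have h1 : ∀ᶠ L : ℕ in atTop, (L : ℝ) ^ 2 * (B / A) ^ L < c / B := by
    have h2 := tendsto_pow_const_mul_const_pow_of_abs_lt_one 2 (r := B / A) (by
      rw [abs_of_pos (by positivity), div_lt_one hA0]
      exact hBE)
    exact h2.eventually (gt_mem_nhds (by positivity))
  have h2 : ∀ᶠ L : ℕ in atTop, η ≤ (κ / 6 - η) * (L : ℝ) :=
    ((tendsto_natCast_atTop_atTop (R := ℝ)).const_mul_atTop (by linarith)).eventually_ge_atTop _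
  have h3 : ∀ᶠ L : ℕ in atTop, B ^ (L + 1) ≤ (((range (b ^ (2 * (L + 1) + 1))).filter
      (fun n => b ^ (2 * (L + 1)) ≤ n ∧
      (Nat.digits b n).reverse = Nat.digits b n ∧ n.primeFactorsList.length ≤ r ∧
      ∀ p ∈ n.primeFactorsList, (b : ℝ) ^ (η * ((L + 1 : ℕ) : ℝ)) < p)).card : ℝ) := by
    filter_upwards [hc, h1, h2, eventually_ge_atTop 1] with L h4 h5 h6 h7
    have hL0 : (0 : ℝ) < L := by exact_mod_cast h7
    have hsub : (range (b ^ (2 * L + 3))).filter (fun n => PlP b r κ L n) ⊆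
        (range (b ^ (2 * (L + 1) + 1))).filter (fun n => b ^ (2 * (L + 1)) ≤ n ∧
        (Nat.digits b n).reverse = Nat.digits b n ∧ n.primeFactorsList.length ≤ r ∧
        ∀ p ∈ n.primeFactorsList, (b : ℝ) ^ (η * ((L + 1 : ℕ) : ℝ)) < p) := by
      intro n hn
      rw [mem_filter, mem_range] at hn ⊢
      obtain ⟨h8, h9, h10, h11, h12, h13⟩ := hn
      refine ⟨by rwa [show 2 * (L + 1) + 1 = 2 * L + 3 by ring], by rwa [show 2 * (L + 1) = 2 * L + 2 by ring],
        h11, h12, fun p hp => lt_of_le_of_lt ?_ (h13 p hp)⟩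
      apply Real.rpow_le_rpow_of_exponent_le (by exact_mod_cast (by omega : 1 ≤ b))
      push_cast
      linarith
    refine le_trans ?_ (h4.trans (by exact_mod_cast card_le_card hsub))
    have hBA : (B / A) ^ L = B ^ L / A ^ L := div_pow _ _ _
    rw [hBA] at h5
    have hAL : 0 < A ^ L := by positivity
    have hB0 : 0 < B := by linarith
    rw [lt_div_iff₀ hB0] at h5
    have h8 : (L : ℝ) ^ 2 * (B ^ L / A ^ L) * B = (L : ℝ) ^ 2 * B ^ (L + 1) / A ^ L := by
      rw [pow_succ]; ring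
    rw [h8, div_lt_iff₀ hAL] at h5
    rw [le_div_iff₀ (by positivity)]
    linarith
  rw [eventually_atTop] at h3 ⊢
  obtain ⟨L0, hL0⟩ := h3
  refine ⟨L0 + 1, fun N hN => ?_⟩
  obtain ⟨L, rfl⟩ : ∃ L, N = L + 1 := ⟨N - 1, by omega⟩
  exact hL0 L (by omega)

end Pool.Agent.W89.PW
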